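import Mathlib

open Filter Topology
open scoped ENNReal

namespace Pool.Agent.Results.MP_810de6_an.ContainsLInfty

/-- `(x i)` is an extended M-basis of `E` (Markushevich basis with arbitrary index type `I`), with
biorthogonal functionals `f i`: the system is biorthogonal, the functionals are total, and the
closed linear span of the `x i` is everything. -/
structure IsExtendedMBasis (𝕜 : Type*) [RCLike 𝕜] {E : Type*} [NormedAddCommGroup E]
    [NormedSpace 𝕜 E] {I : Type*} (x : I → E) (f : I → (E →L[𝕜] 𝕜)) : Prop where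
  biorthogonal_self : ∀ i, f i (x i) = 1
  biorthogonal_ne : ∀ i j, i ≠ j → f j (x i) = 0
  total : ∀ v : E, (∀ i, f i v = 0) → v = 0
  fundamental : (Submodule.span 𝕜 (Set.range x)).topologicalClosure = ⊤

variable (𝕜 : Type) [RCLike 𝕜]

/-- bounded scalar sequences -/
abbrev L := lp (fun _ : ℕ => 𝕜) ∞

/-- the auxiliary index type: nonzero bounded sequences `a` with `|a n| ≤ n + 1` -/
def J : Type := {a : L 𝕜 // a ≠ 0 ∧ ∀ n, ‖a n‖ ≤ (n : ℝ) + 1}

/-- absolutely summable families indexed by `J` -/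
abbrev B := lp (fun _ : J 𝕜 => 𝕜) 1

noncomputable instance : DecidableEq (J 𝕜) := Classical.decEq _

theorem summable_norm (b : B 𝕜) : Summable fun i => ‖b i‖ := by
  have h := lp.memℓp b
  rw [memℓp_gen_iff (by simp)] at h
  simpa using h

theorem norm_eq (b : B 𝕜) : ‖b‖ = ∑' i, ‖b i‖ := by
  rw [lp.norm_eq_tsum_rpow (by simp)]
  simp

theorem norm_coef (n : ℕ) (i : J 𝕜) : ‖i.1 n / ((n : 𝕜) + 1)‖ ≤ 1 := by
  have h1 : ‖((n : 𝕜) + 1)‖ = (n : ℝ) + 1 := by
    have : ((n : 𝕜) + 1) = (((n + 1 : ℕ)) : 𝕜) := by push_cast; ring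
    rw [this, RCLike.norm_natCast]
    push_cast; ring
  rw [norm_div, h1]
  exact (div_le_one (by positivity)).2 (i.2.2 n)

theorem summable_coef (b : B 𝕜) (n : ℕ) :
    Summable fun i : J 𝕜 => b i * (i.1 n / ((n : 𝕜) + 1)) := by
  refine Summable.of_norm_bounded (summable_norm 𝕜 b) fun i => ?_
  rw [norm_mul]
  exact mul_le_of_le_one_right (norm_nonneg _) (norm_coef 𝕜 n i)

/-- the functional `b ↦ ∑ b i * a_i(n) / (n+1)` -/
noncomputable def phi (n : ℕ) : B 𝕜 →L[𝕜] 𝕜 :=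
  LinearMap.mkContinuous
    { toFun := fun b => ∑' i : J 𝕜, b i * (i.1 n / ((n : 𝕜) + 1))
      map_add' := by
        intro b c
        rw [← Summable.tsum_add (summable_coef 𝕜 b n) (summable_coef 𝕜 c n)]
        refine tsum_congr fun i => ?_
        rw [lp.coeFn_add, Pi.add_apply, add_mul]
      map_smul' := by
        intro c b
        rw [RingHom.id_apply, smul_eq_mul, ← tsum_mul_left]
        refine tsum_congr fun i => ?_
        rw [lp.coeFn_smul, Pi.smul_apply, smul_eq_mul, mul_assoc] } 1 (by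
    intro b
    rw [one_mul, norm_eq]
    refine tsum_of_norm_bounded (summable_norm 𝕜 b).hasSum fun i => ?_
    rw [norm_mul]
    exact mul_le_of_le_one_right (norm_nonneg _) (norm_coef 𝕜 n i))

theorem phi_apply (n : ℕ) (b : B 𝕜) :
    phi 𝕜 n b = ∑' i : J 𝕜, b i * (i.1 n / ((n : 𝕜) + 1)) := rfl

theorem phi_single (n : ℕ) (i : J 𝕜) :
    phi 𝕜 n (lp.single 1 i (1 : 𝕜)) = i.1 n / ((n : 𝕜) + 1) := by
  rw [phi_apply, tsum_eq_single i]
  · rw [lp.single_apply_self, one_mul]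
  · intro j hj
    rw [lp.single_apply_ne _ _ _ hj, zero_mul]

/-- the vectors -/
noncomputable def X : ℕ ⊕ J 𝕜 → L 𝕜 × B 𝕜
  | Sum.inl n => (((n : 𝕜) + 1) • lp.single ∞ n (1 : 𝕜), 0)
  | Sum.inr i => (-i.1, lp.single 1 i (1 : 𝕜))

/-- the functionals -/
noncomputable def F : ℕ ⊕ J 𝕜 → (L 𝕜 × B 𝕜 →L[𝕜] 𝕜)
  | Sum.inl n => (((n : 𝕜) + 1)⁻¹ • (lp.evalCLM 𝕜 (fun _ : ℕ => 𝕜) ∞ n)).comp
      (ContinuousLinearMap.fst 𝕜 _ _) + (phi 𝕜 n).comp (ContinuousLinearMap.snd 𝕜 _ _)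
  | Sum.inr i => (lp.evalCLM 𝕜 (fun _ : J 𝕜 => 𝕜) 1 i).comp (ContinuousLinearMap.snd 𝕜 _ _)

theorem F_inl (n : ℕ) (v : L 𝕜 × B 𝕜) :
    F 𝕜 (Sum.inl n) v = ((n : 𝕜) + 1)⁻¹ * v.1 n + phi 𝕜 n v.2 := rfl

theorem F_inr (i : J 𝕜) (v : L 𝕜 × B 𝕜) : F 𝕜 (Sum.inr i) v = v.2 i := rfl

theorem ne_zero' (n : ℕ) : ((n : 𝕜) + 1) ≠ 0 := Nat.cast_add_one_ne_zero n

/-- tail of a bounded sequence -/
noncomputable def tail (a : L 𝕜) (N : ℕ) : L 𝕜 :=
  a - ∑ n ∈ Finset.range N, a n • lp.single ∞ n (1 : 𝕜)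

theorem tail_apply (a : L 𝕜) (N m : ℕ) : tail 𝕜 a N m = if m < N then 0 else a m := by
  have h : (∑ n ∈ Finset.range N, a n • (lp.single ∞ n (1 : 𝕜) : L 𝕜)) m
      = if m < N then a m else 0 := by
    rw [lp.coeFn_sum, Finset.sum_apply]
    have : ∀ n ∈ Finset.range N, (a n • (lp.single ∞ n (1 : 𝕜) : L 𝕜)) m
        = if n = m then a m else 0 := by
      intro n _
      rw [lp.coeFn_smul, Pi.smul_apply, smul_eq_mul]
      by_cases h : n = m
      · subst h
        rw [lp.single_apply_self, if_pos rfl, mul_one]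
      · rw [lp.single_apply_ne _ _ _ (Ne.symm h), if_neg h, mul_zero]
    rw [Finset.sum_congr rfl this, Finset.sum_ite_eq']
    simp
  rw [tail, lp.coeFn_sub, Pi.sub_apply, h]
  split_ifs <;> simp

theorem fundamental_aux1 (n : ℕ) :
    ((lp.single ∞ n (1 : 𝕜) : L 𝕜), (0 : B 𝕜)) ∈
      Submodule.span 𝕜 (Set.range (X 𝕜)) := by
  have h : ((lp.single ∞ n (1 : 𝕜) : L 𝕜), (0 : B 𝕜)) =
      ((n : 𝕜) + 1)⁻¹ • X 𝕜 (Sum.inl n) := by
    simp only [X, Prod.smul_mk, smul_zero, smul_smul, inv_mul_cancel₀ (ne_zero' 𝕜 n), one_smul]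
  rw [h]
  exact Submodule.smul_mem _ _ (Submodule.subset_span ⟨_, rfl⟩)

theorem fundamental_aux2 (a : L 𝕜) :
    (a, (0 : B 𝕜)) ∈ (Submodule.span 𝕜 (Set.range (X 𝕜))).topologicalClosure := by
  rw [← SetLike.mem_coe, Submodule.topologicalClosure_coe, Metric.mem_closure_iff]
  intro ε hε
  -- pick `N` with `‖a‖ < (ε/2) * (N+1)`
  obtain ⟨N, hN⟩ := exists_nat_gt (‖a‖ / (ε / 2))
  have hN' : ‖a‖ ≤ (ε / 2) * N := by
    rw [div_lt_iff₀ (by positivity)] at hN
    linarith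
  set t := tail 𝕜 a N with ht
  by_cases ht0 : t = 0
  · refine ⟨(∑ n ∈ Finset.range N, a n • (lp.single ∞ n (1 : 𝕜) : L 𝕜), 0), ?_, ?_⟩
    · have : ((∑ n ∈ Finset.range N, a n • (lp.single ∞ n (1 : 𝕜) : L 𝕜)), (0 : B 𝕜))
          = ∑ n ∈ Finset.range N, a n • ((lp.single ∞ n (1 : 𝕜) : L 𝕜), (0 : B 𝕜)) := by
        ext1
        · simp [Prod.fst_sum]
        · simp [Prod.snd_sum]
      rw [this]
      exact Submodule.sum_mem _ fun n _ => Submodule.smul_mem _ _ (fundamental_aux1 𝕜 n)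
    · have : a = ∑ n ∈ Finset.range N, a n • (lp.single ∞ n (1 : 𝕜) : L 𝕜) := by
        rw [ht, tail, sub_eq_zero] at ht0
        exact ht0
      rw [← this, dist_self]
      exact hε
  · -- the index
    have hε2 : (((ε / 2 : ℝ) : 𝕜)) ≠ 0 := by
      rw [Ne, RCLike.ofReal_eq_zero]; positivity
    let i : J 𝕜 := ⟨(((ε / 2 : ℝ) : 𝕜))⁻¹ • t, by
      refine ⟨fun h0 => ht0 ?_, fun n => ?_⟩
      · have h1 : (((ε / 2 : ℝ) : 𝕜)) • ((((ε / 2 : ℝ) : 𝕜))⁻¹ • t) = 0 := by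
          rw [h0, smul_zero]
        rwa [smul_smul, mul_inv_cancel₀ hε2, one_smul] at h1
      rw [lp.coeFn_smul, Pi.smul_apply, norm_smul, norm_inv, RCLike.norm_ofReal,
        abs_of_pos (by positivity : (0 : ℝ) < ε / 2), ht, tail_apply]
      split_ifs with hn
      · rw [norm_zero, mul_zero]; positivity
      · rw [inv_mul_le_iff₀ (by positivity)]
        have h1 : ‖a n‖ ≤ ‖a‖ := lp.norm_apply_le_norm (by simp) a n
        have h2 : (N : ℝ) ≤ n := by exact_mod_cast not_lt.1 hn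
        have h3 : (ε / 2) * (N : ℝ) ≤ (ε / 2) * n := by gcongr
        nlinarith⟩
    refine ⟨(a, -(((ε / 2 : ℝ) : 𝕜)) • (lp.single 1 i (1 : 𝕜) : B 𝕜)), ?_, ?_⟩
    · have key : (a, -(((ε / 2 : ℝ) : 𝕜)) • (lp.single 1 i (1 : 𝕜) : B 𝕜)) =
          (∑ n ∈ Finset.range N, a n • ((lp.single ∞ n (1 : 𝕜) : L 𝕜), (0 : B 𝕜)))
            + (-(((ε / 2 : ℝ) : 𝕜))) • X 𝕜 (Sum.inr i) := by
        ext1
        · simp only [X, Prod.fst_add, Prod.fst_sum, Prod.smul_fst]
          have : (-(((ε / 2 : ℝ) : 𝕜))) • (-i.1) = t := by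
            rw [smul_neg, neg_smul, neg_neg, smul_smul, mul_inv_cancel₀ hε2, one_smul]
          rw [this, ht, tail]
          abel
        · simp only [X, Prod.snd_add, Prod.snd_sum, Prod.smul_snd, smul_zero,
            Finset.sum_const_zero, zero_add]
      rw [key]
      refine Submodule.add_mem _ ?_ ?_
      · exact Submodule.sum_mem _ fun n _ => Submodule.smul_mem _ _ (fundamental_aux1 𝕜 n)
      · exact Submodule.smul_mem _ _ (Submodule.subset_span ⟨_, rfl⟩)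
    · rw [Prod.dist_eq, max_lt_iff]
      refine ⟨by rw [dist_self]; exact hε, ?_⟩
      rw [dist_zero_left, neg_smul, norm_neg, norm_smul, lp.norm_single (by simp), norm_one,
        mul_one, RCLike.norm_ofReal, abs_of_pos (by positivity)]
      linarith

theorem fundamental_aux3 (i : J 𝕜) :
    ((0 : L 𝕜), (lp.single 1 i (1 : 𝕜) : B 𝕜)) ∈
      (Submodule.span 𝕜 (Set.range (X 𝕜))).topologicalClosure := by
  have h : ((0 : L 𝕜), (lp.single 1 i (1 : 𝕜) : B 𝕜)) = X 𝕜 (Sum.inr i) + (i.1, 0) := by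
    simp [X]
  rw [h]
  exact Submodule.add_mem _ (Submodule.le_topologicalClosure _ (Submodule.subset_span ⟨_, rfl⟩))
    (fundamental_aux2 𝕜 i.1)

theorem isMBasis : IsExtendedMBasis 𝕜 (X 𝕜) (F 𝕜) where
  biorthogonal_self := by
    rintro (n | i)
    · rw [F_inl]
      simp only [X]
      rw [lp.coeFn_smul, Pi.smul_apply, lp.single_apply_self, smul_eq_mul, mul_one, map_zero,
        add_zero, inv_mul_cancel₀ (ne_zero' 𝕜 n)]
    · rw [F_inr]
      simp only [X]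
      rw [lp.single_apply_self]
  biorthogonal_ne := by
    rintro (n | i) (m | j) h
    · have h' : m ≠ n := fun h' => h (by rw [h'])
      rw [F_inl]
      simp only [X]
      rw [lp.coeFn_smul, Pi.smul_apply, lp.single_apply_ne _ _ _ h', smul_zero, mul_zero, map_zero,
        add_zero]
    · rw [F_inr]
      simp [X]
    · rw [F_inl]
      simp only [X]
      rw [phi_single, lp.coeFn_neg, Pi.neg_apply]
      field_simp
      ring
    · have h' : j ≠ i := fun h' => h (by rw [h'])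
      rw [F_inr]
      simp only [X]
      rw [lp.single_apply_ne _ _ _ h']
  total := by
    intro v hv
    have h2 : v.2 = 0 := by
      ext i
      have := hv (Sum.inr i)
      rw [F_inr] at this
      rw [this]; rfl
    have h1 : v.1 = 0 := by
      ext n
      have := hv (Sum.inl n)
      rw [F_inl, h2, map_zero, add_zero, mul_eq_zero] at this
      rcases this with h | h
      · exact absurd h (inv_ne_zero (ne_zero' 𝕜 n))
      · rw [h]; rfl
    exact Prod.ext h1 h2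
  fundamental := by
    rw [Submodule.eq_top_iff']
    intro v
    have h : v = (v.1, 0) + (ContinuousLinearMap.inr 𝕜 (L 𝕜) (B 𝕜)) v.2 := by
      ext1 <;> simp
    rw [h]
    refine Submodule.add_mem _ (fundamental_aux2 𝕜 v.1) ?_
    have hs : HasSum (fun i => lp.single 1 i (v.2 i)) v.2 := lp.hasSum_single (by simp) v.2
    have hs' := (ContinuousLinearMap.inr 𝕜 (L 𝕜) (B 𝕜)).hasSum hs
    refine isClosed_closure.mem_of_tendsto hs' (Eventually.of_forall fun s => ?_)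
    refine Submodule.sum_mem (Submodule.topologicalClosure _) fun i _ => ?_
    have : (ContinuousLinearMap.inr 𝕜 (L 𝕜) (B 𝕜)) (lp.single 1 i (v.2 i)) =
        v.2 i • ((0 : L 𝕜), (lp.single 1 i (1 : 𝕜) : B 𝕜)) := by
      rw [ContinuousLinearMap.inr_apply, Prod.smul_mk, smul_zero, ← lp.single_smul, smul_eq_mul,
        mul_one]
    rw [this]
    exact Submodule.smul_mem _ _ (fundamental_aux3 𝕜 i)

/-- Over `𝕜 = ℝ` and over `𝕜 = ℂ`: some Banach space `E` has an extended M-basis and contains a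
closed subspace `G`, linearly isometric to `ℓ^∞`, onto which there is a norm-one projection. -/
theorem result (𝕜 : Type) [RCLike 𝕜] :
    ∃ (E : Type) (_ : NormedAddCommGroup E) (_ : NormedSpace 𝕜 E) (_ : CompleteSpace E)
      (I : Type) (x : I → E) (f : I → (E →L[𝕜] 𝕜)),
      IsExtendedMBasis 𝕜 x f ∧
      ∃ G : Submodule 𝕜 E, IsClosed (G : Set E) ∧
        Nonempty (G ≃ₗᵢ[𝕜] lp (fun _ : ℕ => 𝕜) ∞) ∧
        ∃ P : E →L[𝕜] E, ‖P‖ ≤ 1 ∧ (∀ v, P v ∈ G) ∧ ∀ v ∈ G, P v = v := by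
  refine ⟨L 𝕜 × B 𝕜, inferInstance, inferInstance, inferInstance, ℕ ⊕ J 𝕜, X 𝕜, F 𝕜,
    isMBasis 𝕜, ?_⟩
  let e : L 𝕜 →ₗᵢ[𝕜] L 𝕜 × B 𝕜 :=
    { toLinearMap := LinearMap.inl 𝕜 (L 𝕜) (B 𝕜)
      norm_map' := fun a => by simp [Prod.norm_def] }
  refine ⟨LinearMap.range e.toLinearMap, ?_, ⟨e.equivRange.symm⟩, ?_⟩
  · have h1 : IsClosed (Set.range e) := e.isometry.isClosedEmbedding.isClosed_range
    have h2 : ((LinearMap.range e.toLinearMap : Submodule 𝕜 (L 𝕜 × B 𝕜)) : Set (L 𝕜 × B 𝕜))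
        = Set.range e := by
      rw [LinearMap.coe_range]; rfl
    rw [h2]
    exact h1
  · refine ⟨(ContinuousLinearMap.inl 𝕜 _ _).comp (ContinuousLinearMap.fst 𝕜 _ _), ?_, ?_, ?_⟩
    · refine ContinuousLinearMap.opNorm_le_bound _ zero_le_one fun v => ?_
      rw [one_mul]
      simp only [ContinuousLinearMap.comp_apply, ContinuousLinearMap.inl_apply,
        ContinuousLinearMap.coe_fst', Prod.norm_def, norm_zero]
      simp
    · intro v
      exact ⟨v.1, rfl⟩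
    · rintro _ ⟨a, rfl⟩
      rfl

end Pool.Agent.Results.MP_810de6_an.ContainsLInfty
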